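import Pool.Agent.Helper99.SI.StB

set_option autoImplicit false
set_option linter.unusedSectionVars false

namespace Pool.Agent.Helper69.SI

open Pool.Agent.Helper99.SI

section

variable {L : Type} [Ring L] [Algebra ℂ L]

lemma AN_zero (A : ANorm L) : A.N 0 = 0 := by
  refine le_antisymm ?_ (A.nn 0)
  have := A.smul 0 0
  rwa [smul_zero, norm_zero, zero_mul] at this

lemma AN_sum (A : ANorm L) {ι : Type} (s : Finset ι) (f : ι → L) :
    A.N (∑ i ∈ s, f i) ≤ ∑ i ∈ s, A.N (f i) := by
  classical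
  induction s using Finset.induction_on with
  | empty => rw [Finset.sum_empty, Finset.sum_empty, AN_zero]
  | insert a s ha ih =>
    rw [Finset.sum_insert ha, Finset.sum_insert ha]
    exact (A.add _ _).trans (by linarith)

variable [StarRing L]

/-- total norm of the components -/
noncomputable def KN (A : ANorm L) (B : ZGr L) (y : L) : ℝ := ∑ j ∈ (B.fin y).toFinset, A.N (B.p j y)

lemma KN_nonneg (A : ANorm L) (B : ZGr L) (y : L) : 0 ≤ KN A B y :=
  Finset.sum_nonneg fun _ _ => A.nn _

lemma le_KN (A : ANorm L) (B : ZGr L) (y : L) (j : ℤ) : A.N (B.p j y) ≤ KN A B y := by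
  by_cases h : B.p j y = 0
  · rw [h, AN_zero]; exact KN_nonneg A B y
  · exact Finset.single_le_sum (f := fun j => A.N (B.p j y)) (fun _ _ => A.nn _)
      ((B.fin y).mem_toFinset.2 h)

lemma N_mul_left (A : ANorm L) (B : ZGr L)
    (hp : ∀ (k : ℤ) (y z : L), B.p k (y * z) = ∑ᶠ i : ℤ, B.p i y * B.p (k - i) z)
    (y z : L) (b : ℝ) (hb : ∀ j, A.N (B.p j z) ≤ b) (k : ℤ) : A.N (B.p k (y * z)) ≤ KN A B y * b := by
  rw [hp, finsum_eq_sum_of_support_subset (s := (B.fin y).toFinset)]
  · refine (AN_sum A _ _).trans ?_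
    rw [KN, Finset.sum_mul]
    refine Finset.sum_le_sum fun i _ => (A.mul _ _).trans ?_
    exact mul_le_mul_of_nonneg_left (hb _) (A.nn _)
  · intro i hi
    rw [Finset.mem_coe, Set.Finite.mem_toFinset]
    intro h0
    apply hi
    change B.p i y * B.p (k - i) z = 0
    rw [h0, zero_mul]

lemma N_mul_right (A : ANorm L) (B : ZGr L)
    (hp : ∀ (k : ℤ) (y z : L), B.p k (y * z) = ∑ᶠ i : ℤ, B.p i y * B.p (k - i) z)
    (y z : L) (b : ℝ) (hb : ∀ j, A.N (B.p j y) ≤ b) (k : ℤ) : A.N (B.p k (y * z)) ≤ b * KN A B z := by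
  have e : ∑ᶠ i : ℤ, B.p i y * B.p (k - i) z = ∑ᶠ i : ℤ, B.p (k - i) y * B.p i z := by
    rw [← finsum_comp_equiv (Equiv.subLeft k)]
    refine finsum_congr fun i => ?_
    simp only [Equiv.subLeft_apply, sub_sub_cancel]
  rw [hp, e, finsum_eq_sum_of_support_subset (s := (B.fin z).toFinset)]
  · refine (AN_sum A _ _).trans ?_
    rw [KN, Finset.mul_sum]
    refine Finset.sum_le_sum fun i _ => (A.mul _ _).trans ?_
    exact mul_le_mul_of_nonneg_right (hb _) (A.nn _)
  · intro i hi
    rw [Finset.mem_coe, Set.Finite.mem_toFinset]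
    intro h0
    apply hi
    change B.p (k - i) y * B.p i z = 0
    rw [h0, mul_zero]

end

theorem hB2 (h1 : StA0) (h2 : StA1) : StB2 := by
  intro n L _ _ _ _ _ D A
  obtain ⟨hp, -⟩ := h1 L D.b
  set c : ℝ := ∑ i, (KN A D.b (D.x i) + KN A D.b (star (D.x i))) with hc
  set C : ℝ := max 1 (max c (A.N 1)) with hC
  have hC1 : 1 ≤ C := le_max_left _ _
  have hCc : c ≤ C := (le_max_left _ _).trans (le_max_right _ _)
  have hCN : A.N 1 ≤ C := (le_max_right _ _).trans (le_max_right _ _)
  have hx : ∀ i, KN A D.b (D.x i) ≤ C ∧ KN A D.b (star (D.x i)) ≤ C := by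
    intro i
    have h3 : KN A D.b (D.x i) + KN A D.b (star (D.x i)) ≤ c :=
      Finset.single_le_sum (f := fun i => KN A D.b (D.x i) + KN A D.b (star (D.x i)))
        (fun i _ => add_nonneg (KN_nonneg _ _ _) (KN_nonneg _ _ _)) (Finset.mem_univ i)
    have h4 := KN_nonneg A D.b (D.x i)
    have h5 := KN_nonneg A D.b (star (D.x i))
    constructor <;> linarith
  have h10 : ∀ j, A.N (D.b.p j 1) ≤ C := by
    intro j
    have e : D.b.p j 1 = if j = 0 then 1 else 0 := by
      have := D.b.pp j 0 1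
      rw [D.b.one] at this
      exact this
    rw [e]
    split_ifs
    · exact hCN
    · rw [AN_zero]; linarith
  refine ⟨C, hC1, fun μ => ?_⟩
  induction μ with
  | nil =>
    intro j
    have e : D.w [] = 1 := rfl
    rw [e, star_one]
    simp only [List.length_nil, zero_add, pow_one]
    exact ⟨h10 j, h10 j⟩
  | cons i μ ih =>
    intro j
    have e : D.w (i :: μ) = D.x i * D.w μ := by
      change ((i :: μ).map D.x).prod = _
      rw [List.map_cons, List.prod_cons]
      rfl
    rw [e, star_mul, List.length_cons]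
    have hC0 : 0 ≤ C ^ (μ.length + 1) := by positivity
    constructor
    · refine (N_mul_left A D.b hp _ _ _ (fun j => (ih j).1) j).trans ?_
      rw [pow_succ' C (μ.length + 1)]
      exact mul_le_mul_of_nonneg_right (hx i).1 hC0
    · refine (N_mul_right A D.b hp _ _ _ (fun j => (ih j).2) j).trans ?_
      rw [pow_succ C (μ.length + 1)]
      exact mul_le_mul_of_nonneg_left (hx i).2 hC0

end Pool.Agent.Helper69.SI
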