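import Pool.Agent.Helper69.SI.M_B2

set_option autoImplicit false
set_option linter.unusedSectionVars false

namespace Pool.Agent.Helper69.SI

open Pool.Agent.Helper99.SI

lemma card_words (n m : ℕ) : (List.finite_length_le (Fin n) m).toFinset.card ≤ (n + 1) ^ m := by
  classical
  have h : (Finset.univ : Finset (Fin m → Option (Fin n))).card = (n + 1) ^ m := by
    rw [Finset.card_univ, Fintype.card_fun, Fintype.card_option, Fintype.card_fin, Fintype.card_fin]
  rw [← h]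
  refine Finset.card_le_card_of_injOn (fun ν => fun i : Fin m => ν[(i : ℕ)]?) (fun _ _ => Finset.mem_coe.2 (Finset.mem_univ _)) ?_
  intro ν hν μ hμ he
  have h1 : ν.length ≤ m := by simpa using hν
  have h2 : μ.length ≤ m := by simpa using hμ
  refine List.ext_getElem? fun i => ?_
  by_cases hi : i < m
  · exact congrFun he ⟨i, hi⟩
  · rw [List.getElem?_eq_none (by omega), List.getElem?_eq_none (by omega)]

theorem hB3 (h1 : StA0) (h2 : StA7) (h3 : StB2) : StB3 := by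
  classical
  intro n L _ _ _ _ _ D X0 m A hm
  obtain ⟨-, -, -, -, -, -, hev, -⟩ := h1 L D.b
  obtain ⟨n1, C1, hn1, -, hA7⟩ := h2 n L D
  obtain ⟨C, hC1, hC⟩ := h3 n L D A
  have hpst : ∀ (j : ℤ) (y : L), D.b.p j (star y) = star (D.b.p (-j) y) := by
    intro j y
    have := D.b.st (-j) y
    rwa [neg_neg] at this
  -- first kind
  have k1 : ∀ (t : ℝ) (j : ℤ) (ν : W n), D.b.p j (m.piT D t (Sum.inl (Sum.inl ν))) ≠ 0 →
      ν.length ≤ n1 * j.natAbs + C1 ∧ (0 < t → t ≤ 1 →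
        A.N (D.b.p j (m.piT D t (Sum.inl (Sum.inl ν)))) ≤ C ^ (ν.length + 1)) := by
    intro t j ν h
    by_cases hM : m.M ≤ ν.length
    · have e : D.b.p j (m.piT D t (Sum.inl (Sum.inl ν))) = (t : ℂ) ^ j • D.b.p j (D.w ν) := by
        change D.b.p j (if m.M ≤ ν.length then D.b.ev (t : ℂ) (D.w ν) else 0) = _
        rw [if_pos hM, hev]
      rw [e] at h ⊢
      have h0 : D.b.p j (D.w ν) ≠ 0 := fun h0 => h (by rw [h0, smul_zero])
      have hj : 1 ≤ j := by
        by_contra hj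
        exact h0 (hm.pos ν hM j (by omega))
      have h4 := hA7 ν j h0
      constructor
      · have h5 : ((j.natAbs : ℕ) : ℤ) = j := Int.natAbs_of_nonneg (by omega)
        have h6 : ((ν.length : ℕ) : ℤ) ≤ ((n1 * j.natAbs + C1 : ℕ) : ℤ) := by
          push_cast
          push_cast at h5
          rw [h5]
          exact h4
        exact_mod_cast h6
      · intro ht ht1
        refine (A.smul _ _).trans ?_
        have h7 : ‖(t : ℂ) ^ j‖ ≤ 1 := by
          rw [norm_zpow, Complex.norm_real, Real.norm_of_nonneg ht.le]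
          obtain ⟨k, rfl⟩ := Int.eq_ofNat_of_zero_le (show 0 ≤ j by omega)
          rw [zpow_natCast]
          exact pow_le_one₀ ht.le ht1
        calc ‖(t : ℂ) ^ j‖ * A.N (D.b.p j (D.w ν)) ≤ 1 * A.N (D.b.p j (D.w ν)) :=
              mul_le_mul_of_nonneg_right h7 (A.nn _)
          _ = A.N (D.b.p j (D.w ν)) := one_mul _
          _ ≤ _ := (hC ν j).1
    · exfalso
      apply h
      change D.b.p j (if m.M ≤ ν.length then D.b.ev (t : ℂ) (D.w ν) else 0) = 0
      rw [if_neg hM, map_zero]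
  -- second kind
  have k2 : ∀ (t : ℝ) (j : ℤ) (ν : W n), D.b.p j (m.piT D t (Sum.inl (Sum.inr ν))) ≠ 0 →
      ν.length ≤ n1 * j.natAbs + C1 ∧
        A.N (D.b.p j (m.piT D t (Sum.inl (Sum.inr ν)))) ≤ C ^ (ν.length + 1) := by
    intro t j ν h
    by_cases hM : m.M ≤ ν.length
    · have e : D.b.p j (m.piT D t (Sum.inl (Sum.inr ν))) = D.b.p j (star (D.w ν)) := by
        change D.b.p j (if m.M ≤ ν.length then star (D.w ν) else 0) = _
        rw [if_pos hM]
      rw [e] at h ⊢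
      have h0 : D.b.p (-j) (D.w ν) ≠ 0 := by
        intro h0
        apply h
        rw [hpst, h0, star_zero]
      have hj : 1 ≤ -j := by
        by_contra hj
        exact h0 (hm.pos ν hM (-j) (by omega))
      have h4 := hA7 ν (-j) h0
      refine ⟨?_, (hC ν j).2⟩
      have h5 : ((j.natAbs : ℕ) : ℤ) = -j := by omega
      have h6 : ((ν.length : ℕ) : ℤ) ≤ ((n1 * j.natAbs + C1 : ℕ) : ℤ) := by
        push_cast
        push_cast at h5
        rw [h5]
        exact h4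
      exact_mod_cast h6
    · exfalso
      apply h
      change D.b.p j (if m.M ≤ ν.length then star (D.w ν) else 0) = 0
      rw [if_neg hM, map_zero]
  -- the finite sets
  let Wf : ℤ → Finset (W n) := fun j => (List.finite_length_le (Fin n) (n1 * j.natAbs + C1)).toFinset
  have hWf : ∀ j (ν : W n), ν.length ≤ n1 * j.natAbs + C1 → ν ∈ Wf j := by
    intro j ν h
    simpa [Wf] using h
  let S : ℤ → Finset (Idx n m.r) := fun j =>
    ((Wf j).disjSum (Wf j)).disjSum (Finset.univ : Finset (Fin m.r))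
  have hS : ∀ (t : ℝ) (j : ℤ) (i : Idx n m.r), D.b.p j (m.piT D t i) ≠ 0 → i ∈ S j := by
    rintro t j ((ν | ν) | a) h
    · exact Finset.inl_mem_disjSum.2 (Finset.inl_mem_disjSum.2 (hWf j ν (k1 t j ν h).1))
    · exact Finset.inl_mem_disjSum.2 (Finset.inr_mem_disjSum.2 (hWf j ν (k2 t j ν h).1))
    · exact Finset.inr_mem_disjSum.2 (Finset.mem_univ _)
  refine ⟨fun j => (S j).finite_toSet.subset ?_, ?_⟩
  · rintro i ⟨t, -, h⟩
    exact hS t j i h
  have hnC : (1 : ℝ) ≤ ((n : ℝ) + 1) * C := by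
    have : (1 : ℝ) ≤ (n : ℝ) + 1 := by
      have : (0 : ℝ) ≤ n := Nat.cast_nonneg n
      linarith
    nlinarith
  refine ⟨(((n : ℝ) + 1) * C) ^ n1, one_le_pow₀ hnC, fun t ht ht1 => ?_⟩
  set B0 : ℝ := ∑ a : Fin m.r, KN A D.b (m.piT D t (Sum.inr a)) with hB0
  have hB00 : 0 ≤ B0 := Finset.sum_nonneg fun _ _ => KN_nonneg _ _ _
  refine ⟨2 * (C * (((n : ℝ) + 1) * C) ^ C1) + B0, fun z hz j => ?_⟩
  have e1 : m.Yj D t z j = ∑ i ∈ S j, z i • D.b.p j (m.piT D t i) := by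
    rw [MData.Yj]
    refine finsum_eq_sum_of_support_subset _ ?_
    intro i hi
    refine hS t j i fun h0 => hi ?_
    change z i • D.b.p j (m.piT D t i) = 0
    rw [h0, smul_zero]
  have e2 : A.N (m.Yj D t z j) ≤ ∑ i ∈ S j, A.N (D.b.p j (m.piT D t i)) := by
    rw [e1]
    refine (AN_sum A _ _).trans (Finset.sum_le_sum fun i _ => (A.smul _ _).trans ?_)
    calc ‖z i‖ * A.N (D.b.p j (m.piT D t i)) ≤ 1 * A.N (D.b.p j (m.piT D t i)) :=
          mul_le_mul_of_nonneg_right (hz i) (A.nn _)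
      _ = _ := one_mul _
  refine e2.trans ?_
  have e3 : ∑ i ∈ S j, A.N (D.b.p j (m.piT D t i)) =
      (∑ ν ∈ Wf j, A.N (D.b.p j (m.piT D t (Sum.inl (Sum.inl ν)))) +
        ∑ ν ∈ Wf j, A.N (D.b.p j (m.piT D t (Sum.inl (Sum.inr ν))))) +
        ∑ a : Fin m.r, A.N (D.b.p j (m.piT D t (Sum.inr a))) := by
    simp only [S]
    rw [Finset.sum_disjSum, Finset.sum_disjSum]
  rw [e3]
  set m' := n1 * j.natAbs + C1 with hm'
  have hC0 : (0 : ℝ) ≤ C := by linarith
  have hlen : ∀ ν ∈ Wf j, C ^ (ν.length + 1) ≤ C ^ (m' + 1) := by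
    intro ν hν
    have : ν.length ≤ m' := by simpa [Wf] using hν
    exact pow_le_pow_right₀ hC1 (by omega)
  have hcard : ((Wf j).card : ℝ) ≤ ((n : ℝ) + 1) ^ m' := by
    have := card_words n m'
    exact_mod_cast this
  have b1 : ∀ g : W n → ℝ, (∀ ν ∈ Wf j, g ν ≤ C ^ (m' + 1)) →
      ∑ ν ∈ Wf j, g ν ≤ C * (((n : ℝ) + 1) * C) ^ m' := by
    intro g hg
    calc ∑ ν ∈ Wf j, g ν ≤ ∑ ν ∈ Wf j, C ^ (m' + 1) := Finset.sum_le_sum hg
      _ = (Wf j).card * C ^ (m' + 1) := by rw [Finset.sum_const, nsmul_eq_mul]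
      _ ≤ ((n : ℝ) + 1) ^ m' * C ^ (m' + 1) := mul_le_mul_of_nonneg_right hcard (by positivity)
      _ = C * (((n : ℝ) + 1) * C) ^ m' := by rw [mul_pow, pow_succ]; ring
  have b2 := b1 (fun ν => A.N (D.b.p j (m.piT D t (Sum.inl (Sum.inl ν))))) (by
    intro ν hν
    by_cases h0 : D.b.p j (m.piT D t (Sum.inl (Sum.inl ν))) = 0
    · simp only [h0, AN_zero]; positivity
    · exact ((k1 t j ν h0).2 ht ht1).trans (hlen ν hν))
  have b3 := b1 (fun ν => A.N (D.b.p j (m.piT D t (Sum.inl (Sum.inr ν))))) (by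
    intro ν hν
    by_cases h0 : D.b.p j (m.piT D t (Sum.inl (Sum.inr ν))) = 0
    · simp only [h0, AN_zero]; positivity
    · exact ((k2 t j ν h0).2).trans (hlen ν hν))
  have b4 : ∑ a : Fin m.r, A.N (D.b.p j (m.piT D t (Sum.inr a))) ≤ B0 :=
    Finset.sum_le_sum fun a _ => le_KN _ _ _ _
  have b5 : C * (((n : ℝ) + 1) * C) ^ m' =
      C * (((n : ℝ) + 1) * C) ^ C1 * ((((n : ℝ) + 1) * C) ^ n1) ^ j.natAbs := by
    rw [hm', pow_add, pow_mul]
    ring
  have b6 : (1 : ℝ) ≤ ((((n : ℝ) + 1) * C) ^ n1) ^ j.natAbs := one_le_pow₀ (one_le_pow₀ hnC)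
  rw [b5] at b2 b3
  have b7 : B0 ≤ B0 * ((((n : ℝ) + 1) * C) ^ n1) ^ j.natAbs := by nlinarith
  calc _ ≤ (C * (((n : ℝ) + 1) * C) ^ C1 * ((((n : ℝ) + 1) * C) ^ n1) ^ j.natAbs +
        C * (((n : ℝ) + 1) * C) ^ C1 * ((((n : ℝ) + 1) * C) ^ n1) ^ j.natAbs) +
        B0 * ((((n : ℝ) + 1) * C) ^ n1) ^ j.natAbs := add_le_add (add_le_add b2 b3) (b4.trans b7)
    _ = _ := by ring

end Pool.Agent.Helper69.SI
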