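import Pool.Agent.Helper99.SI.StT

set_option autoImplicit false

/-!
# Project SI: module E0 (bijectivity)
-/

namespace Pool.Agent.Helper69.SI

open Pool.Agent.Helper99.SI

theorem hE0 : StE0 := by
  intro X _ _ Φ P r hr0 hr1 hPP hPΦ hper
  have hPA : ∀ (m : ℕ) (x : X), P ((((r : ℂ) • Φ) ^ m) x) = (((r : ℂ) • Φ) ^ m) (P x) := by
    intro m
    induction m with
    | zero => intro x; simp
    | succ m ih =>
      intro x
      rw [pow_succ', Module.End.mul_apply, LinearMap.smul_apply, map_smul, hPΦ, ih,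
        Module.End.mul_apply, LinearMap.smul_apply]
  have hrj : ∀ j : ℕ, 1 ≤ j → (1 : ℂ) - (r : ℂ) ^ j ≠ 0 := by
    intro j hj h
    have h1 : r ^ j < 1 := pow_lt_one₀ hr0 hr1 (by omega)
    have h2 : (r : ℂ) ^ j = 1 := (sub_eq_zero.mp h).symm
    have h3 : r ^ j = 1 := by exact_mod_cast h2
    linarith
  have hpow : ∀ (m : ℕ) (x : X), (((r : ℂ) • Φ) ^ m) x = (r : ℂ) ^ m • (Φ ^ m) x := by
    intro m x
    rw [smul_pow, LinearMap.smul_apply]
  constructor
  · intro x y hxy
    simp only at hxy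
    set d := x - y with hd
    have hF : d - (r : ℂ) • Φ (d - P d) = 0 := by
      have e : d - P d = (x - P x) - (y - P y) := by
        rw [hd, map_sub]; abel
      rw [e, map_sub, smul_sub, hd]
      have := hxy
      have h2 : x - y - ((r : ℂ) • Φ (x - P x) - (r : ℂ) • Φ (y - P y))
        = (x - (r : ℂ) • Φ (x - P x)) - (y - (r : ℂ) • Φ (y - P y)) := by abel
      rw [h2, this, sub_self]
    have hPd : P d = 0 := by
      have h1 : P (d - (r : ℂ) • Φ (d - P d)) = 0 := by rw [hF, map_zero]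
      have h2 : P (d - P d) = 0 := by rw [map_sub P d (P d), hPP, sub_self]
      rw [map_sub P d _, map_smul, hPΦ, h2, map_zero, smul_zero, sub_zero] at h1
      exact h1
    rw [hPd, sub_zero] at hF
    have hA : ((r : ℂ) • Φ) d = d := by
      rw [LinearMap.smul_apply]
      exact (sub_eq_zero.mp hF).symm
    have hAm : ∀ m : ℕ, (((r : ℂ) • Φ) ^ m) d = d := by
      intro m
      induction m with
      | zero => simp
      | succ m ih => rw [pow_succ, Module.End.mul_apply, hA, ih]
    obtain ⟨k, j, hj, hkj⟩ := hper d hPd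
    have h1 : d = (r : ℂ) ^ j • d := by
      have e1 := hAm (k + j)
      rw [hpow, hkj, pow_add, mul_comm, mul_smul, ← hpow, hAm] at e1
      exact e1.symm
    have h2 : ((1 : ℂ) - (r : ℂ) ^ j) • d = 0 := by
      rw [sub_smul, one_smul, ← h1, sub_self]
    have h3 : d = 0 := (smul_eq_zero.mp h2).resolve_left (hrj j hj)
    exact sub_eq_zero.mp h3
  · intro x
    set x1 := x - P x with hx1
    have hPx1 : P x1 = 0 := by rw [hx1, map_sub, hPP, sub_self]
    obtain ⟨k, j, hj, hkj⟩ := hper x1 hPx1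
    set A : X →ₗ[ℂ] X := (r : ℂ) • Φ with hA
    set S : ℕ → X := fun m => (∑ i ∈ Finset.range m, A ^ i) x1 with hS
    have hgeo : ∀ m : ℕ, S m - A (S m) = x1 - (A ^ m) x1 := by
      intro m
      have h1 : (1 - A) * ∑ i ∈ Finset.range m, A ^ i = 1 - A ^ m := mul_neg_geom_sum A m
      have h2 := congrArg (fun f : X →ₗ[ℂ] X => f x1) h1
      simpa [Module.End.mul_apply, LinearMap.sub_apply, hS, LinearMap.sum_apply, map_sum] using h2
    have hPS : ∀ m : ℕ, P (S m) = 0 := by
      intro m
      simp only [hS, LinearMap.sum_apply, map_sum]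
      refine Finset.sum_eq_zero fun i _ => ?_
      rw [hPA, hPx1, map_zero]
    set c : ℂ := (1 - (r : ℂ) ^ j)⁻¹ with hc
    set x' := c • (S (k + j) - (r : ℂ) ^ j • S k) with hx'
    have hPx' : P x' = 0 := by
      rw [hx', map_smul, map_sub, map_smul, hPS, hPS, smul_zero, sub_zero, smul_zero]
    have hsol : x' - A x' = x1 := by
      have h1 : x' - A x' = c • ((S (k + j) - A (S (k + j))) - (r : ℂ) ^ j • (S k - A (S k))) := by
        rw [hx', map_smul, map_sub, map_smul, ← smul_sub, smul_sub ((r : ℂ) ^ j)]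
        congr 1
        abel
      rw [h1, hgeo, hgeo, hpow, hpow, hkj, pow_add]
      have h2 : x1 - ((r : ℂ) ^ k * (r : ℂ) ^ j) • (Φ ^ k) x1 -
          (r : ℂ) ^ j • (x1 - (r : ℂ) ^ k • (Φ ^ k) x1) = (1 - (r : ℂ) ^ j) • x1 := by
        module
      rw [h2, smul_smul, hc, inv_mul_cancel₀ (hrj j hj), one_smul]
    refine ⟨P x + x', ?_⟩
    simp only
    have e1 : P x + x' - P (P x + x') = x' := by
      rw [map_add, hPP, hPx', add_zero]; abel
    rw [e1]
    have e2 : x' - (r : ℂ) • Φ x' = x1 := by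
      rw [← LinearMap.smul_apply]
      exact hsol
    rw [add_sub_assoc, e2, hx1]
    abel

end Pool.Agent.Helper69.SI
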