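import Pool.Agent.Helper99.SI.StT

set_option autoImplicit false

/-!
# Project SI: module E1 (the edge t = 1)
-/

namespace Pool.Agent.Helper69.SI

open Pool.Agent.Helper99.SI

section

variable {n : ℕ} {L : Type} [Ring L] [Algebra ℂ L] [StarRing L] [StarModule ℂ L] (D : Sys n L)

omit [StarModule ℂ L] in
lemma ev1 (y : L) : D.b.ev 1 y = y := by
  change ∑ᶠ j : ℤ, ((1 : ℂ) ^ j) • D.b.p j y = y
  simp only [one_zpow, one_smul]
  exact D.b.sum y

omit [StarModule ℂ L] in
lemma w_nil : D.w [] = 1 := by simp [Sys.w, wd]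

omit [StarModule ℂ L] in
lemma w_cons (a : Fin n) (ν : W n) : D.w (a :: ν) = D.x a * D.w ν := by
  simp [Sys.w, wd]

omit [StarModule ℂ L] in
lemma w_snoc (a : Fin n) (ν : W n) : D.w (ν ++ [a]) = D.w ν * D.x a := by
  simp [Sys.w, wd]

/-- span of the nonempty words and ghost words -/
def T1 : Submodule ℂ L :=
  Submodule.span ℂ {y | ∃ ν : W n, ν ≠ [] ∧ (y = D.w ν ∨ y = star (D.w ν))}

lemma Phi_apply (h4 : StA8) (y : L) : D.Phi 1 y = ∑ i, star (D.x i) * y * D.x i := by
  have h := (h4 n L D 1 0 y one_ne_zero).1 y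
  rw [h]
  refine Finset.sum_congr rfl fun i _ => ?_
  rw [ev1]

lemma Phi_star (h4 : StA8) (y : L) : D.Phi 1 (star y) = star (D.Phi 1 y) := by
  rw [Phi_apply D h4, Phi_apply D h4, star_sum]
  refine Finset.sum_congr rfl fun i _ => ?_
  rw [star_mul, star_mul, star_star, mul_assoc]

lemma Phi_pow_star (h4 : StA8) (k : ℕ) (y : L) :
    (D.Phi 1 ^ k) (star y) = star ((D.Phi 1 ^ k) y) := by
  induction k generalizing y with
  | zero => simp
  | succ k ih =>
    rw [pow_succ, Module.End.mul_apply, Module.End.mul_apply, Phi_star D h4, ih]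

lemma Phi_one (h4 : StA8) : D.Phi 1 1 = (n : ℂ) • (1 : L) := by
  rw [Phi_apply D h4]
  have h : ∀ i : Fin n, star (D.x i) * 1 * D.x i = 1 := by
    intro i
    rw [mul_one, D.orth, if_pos rfl]
  rw [Finset.sum_congr rfl fun i _ => h i, Finset.sum_const, Finset.card_univ, Fintype.card_fin,
    Nat.cast_smul_eq_nsmul]

lemma Phi_pow_one (h4 : StA8) (k : ℕ) : (D.Phi 1 ^ k) 1 = ((n : ℂ) ^ k) • (1 : L) := by
  induction k with
  | zero => simp
  | succ k ih =>
    rw [pow_succ', Module.End.mul_apply, ih, map_smul, Phi_one D h4, smul_smul, pow_succ]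

/-- Phi rotates words. -/
lemma Phi_word (h4 : StA8) (a : Fin n) (ν : W n) : D.Phi 1 (D.w (a :: ν)) = D.w (ν ++ [a]) := by
  rw [Phi_apply D h4, Finset.sum_eq_single a]
  · rw [w_cons, ← mul_assoc, D.orth, if_pos rfl, one_mul, w_snoc]
  · intro i _ hi
    rw [w_cons, ← mul_assoc, D.orth, if_neg hi, zero_mul, zero_mul]
  · intro h
    exact absurd (Finset.mem_univ a) h

lemma Phi_rot (h4 : StA8) (k : ℕ) (ν : W n) (hν : ν ≠ []) :
    (D.Phi 1 ^ k) (D.w ν) = D.w (ν.rotate k) := by
  induction k generalizing ν with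
  | zero => simp
  | succ k ih =>
    rcases ν with _ | ⟨a, ν⟩
    · exact absurd rfl hν
    · rw [pow_succ, Module.End.mul_apply, Phi_word D h4, ih _ (by simp)]
      rw [List.rotate_cons_succ]

lemma Phi_T1 (h4 : StA8) : ∀ z ∈ T1 D, D.Phi 1 z ∈ T1 D := by
  intro z hz
  have : T1 D ≤ (T1 D).comap (D.Phi 1) := by
    refine Submodule.span_le.mpr ?_
    rintro y ⟨ν, hν, hy⟩
    rcases ν with _ | ⟨a, ν⟩
    · exact absurd rfl hν
    · rcases hy with hy | hy
      · refine Submodule.subset_span ⟨ν ++ [a], by simp, Or.inl ?_⟩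
        rw [hy, Phi_word D h4]
      · refine Submodule.subset_span ⟨ν ++ [a], by simp, Or.inr ?_⟩
        rw [hy, Phi_star D h4, Phi_word D h4]
  exact this hz

lemma Phi_pow_T1 (h4 : StA8) (m : ℕ) : ∀ z ∈ T1 D, (D.Phi 1 ^ m) z ∈ T1 D := by
  induction m with
  | zero => intro z hz; simpa using hz
  | succ m ih =>
    intro z hz
    rw [pow_succ', Module.End.mul_apply]
    exact Phi_T1 D h4 _ (ih z hz)

/-- elements of T1 are periodic -/
lemma T1_per (h4 : StA8) : ∀ z ∈ T1 D, ∃ j : ℕ, 1 ≤ j ∧ (D.Phi 1 ^ j) z = z := by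
  have hmul : ∀ (j m : ℕ) (z : L), (D.Phi 1 ^ j) z = z → (D.Phi 1 ^ (j * m)) z = z := by
    intro j m z hz
    rw [pow_mul]
    induction m with
    | zero => simp
    | succ m ih => rw [pow_succ, Module.End.mul_apply, hz, ih]
  intro z hz
  refine Submodule.span_induction ?_ ?_ ?_ ?_ hz
  · rintro y ⟨ν, hν, hy⟩
    have hw : (D.Phi 1 ^ ν.length) (D.w ν) = D.w ν := by
      rw [Phi_rot D h4 _ _ hν, List.rotate_length]
    refine ⟨ν.length, List.length_pos_iff.mpr hν, ?_⟩
    rcases hy with hy | hy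
    · rw [hy, hw]
    · rw [hy, Phi_pow_star D h4, hw]
  · exact ⟨1, le_refl _, map_zero _⟩
  · rintro y z _ _ ⟨j, hj, hy⟩ ⟨m, hm, hz⟩
    refine ⟨j * m, Nat.mul_pos hj hm, ?_⟩
    rw [map_add, hmul j m y hy, mul_comm, hmul m j z hz]
  · rintro c y _ ⟨j, hj, hy⟩
    exact ⟨j, hj, by rw [map_smul, hy]⟩

/-- elements which are mapped into T1 by a power of Phi -/
def KK (h4 : StA8) : Submodule ℂ L where
  carrier := {y | ∃ k : ℕ, (D.Phi 1 ^ k) y ∈ T1 D}
  zero_mem' := ⟨0, by simp⟩
  add_mem' := by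
    rintro y z ⟨k, hy⟩ ⟨m, hz⟩
    refine ⟨k + m, ?_⟩
    rw [map_add]
    refine Submodule.add_mem _ ?_ ?_
    · rw [add_comm, pow_add, Module.End.mul_apply]
      exact Phi_pow_T1 D h4 _ _ hy
    · rw [pow_add, Module.End.mul_apply]
      exact Phi_pow_T1 D h4 _ _ hz
  smul_mem' := by
    rintro c y ⟨k, hy⟩
    exact ⟨k, by rw [map_smul]; exact Submodule.smul_mem _ _ hy⟩

lemma mem_KK (h4 : StA8) (y : L) : y ∈ KK D h4 ↔ ∃ k : ℕ, (D.Phi 1 ^ k) y ∈ T1 D := Iff.rfl

lemma KK_of (h4 : StA8) (y : L) (h : D.Phi 1 y ∈ KK D h4) : y ∈ KK D h4 := by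
  obtain ⟨k, hk⟩ := h
  exact ⟨k + 1, by rw [pow_succ, Module.End.mul_apply]; exact hk⟩

lemma KK_Phi (h4 : StA8) (y : L) (h : y ∈ KK D h4) : D.Phi 1 y ∈ KK D h4 := by
  obtain ⟨k, hk⟩ := h
  refine ⟨k, ?_⟩
  rw [← Module.End.mul_apply, ← pow_succ, pow_succ', Module.End.mul_apply]
  exact Phi_T1 D h4 _ hk

lemma T1_KK (h4 : StA8) (y : L) (h : y ∈ T1 D) : y ∈ KK D h4 := ⟨0, by simpa using h⟩

/-- KK and the scalars span L -/
lemma KK_top (h4 : StA8) (hn : n ≠ 0) (y : L) : ∃ c : ℂ, y - c • (1 : L) ∈ KK D h4 := by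
  have hof : ∀ y : L, (∃ c : ℂ, D.Phi 1 y - c • (1 : L) ∈ KK D h4) →
      ∃ c : ℂ, y - c • (1 : L) ∈ KK D h4 := by
    rintro y ⟨c, hc⟩
    refine ⟨c / n, KK_of D h4 _ ?_⟩
    rw [map_sub, map_smul, Phi_one D h4, smul_smul, div_mul_cancel₀ _ (by exact_mod_cast hn)]
    exact hc
  have hmono : ∀ (β α : W n), ∃ c : ℂ, D.w α * star (D.w β) - c • (1 : L) ∈ KK D h4 := by
    intro β
    induction β with
    | nil =>
      intro α
      rcases α with _ | ⟨a, α⟩
      · refine ⟨1, ?_⟩
        rw [w_nil, star_one, mul_one, one_smul, sub_self]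
        exact Submodule.zero_mem _
      · refine ⟨0, ?_⟩
        rw [w_nil, star_one, mul_one, zero_smul, sub_zero]
        exact T1_KK D h4 _ (Submodule.subset_span ⟨a :: α, by simp, Or.inl rfl⟩)
    | cons b β ih =>
      intro α
      apply hof
      have hP : D.Phi 1 (D.w α * star (D.w (b :: β))) = star (D.x b) * D.w α * star (D.w β) := by
        rw [Phi_apply D h4, Finset.sum_eq_single b]
        · rw [w_cons, star_mul]
          have : star (D.x b) * (D.w α * (star (D.w β) * star (D.x b))) * D.x b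
              = star (D.x b) * D.w α * star (D.w β) * (star (D.x b) * D.x b) := by
            simp only [mul_assoc]
          rw [this, D.orth, if_pos rfl, mul_one]
        · intro i _ hi
          rw [w_cons, star_mul]
          have : star (D.x i) * (D.w α * (star (D.w β) * star (D.x b))) * D.x i
              = star (D.x i) * D.w α * star (D.w β) * (star (D.x b) * D.x i) := by
            simp only [mul_assoc]
          rw [this, D.orth, if_neg (Ne.symm hi), mul_zero]
        · intro h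
          exact absurd (Finset.mem_univ b) h
      rw [hP]
      rcases α with _ | ⟨a, α⟩
      · refine ⟨0, ?_⟩
        rw [w_nil, mul_one, zero_smul, sub_zero, ← star_mul, ← w_snoc]
        exact T1_KK D h4 _ (Submodule.subset_span ⟨β ++ [b], by simp, Or.inr rfl⟩)
      · rw [w_cons, ← mul_assoc, D.orth]
        by_cases hab : b = a
        · rw [if_pos hab, one_mul]
          exact ih α
        · rw [if_neg hab, zero_mul, zero_mul]
          refine ⟨0, ?_⟩
          rw [zero_smul, sub_zero]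
          exact Submodule.zero_mem _
  refine Submodule.span_induction ?_ ?_ ?_ ?_ (D.span y)
  · rintro y ⟨⟨α, β⟩, rfl⟩
    exact hmono β α
  · exact ⟨0, by rw [zero_smul, sub_zero]; exact Submodule.zero_mem _⟩
  · rintro y z _ _ ⟨c, hc⟩ ⟨d, hd⟩
    refine ⟨c + d, ?_⟩
    have : y + z - (c + d) • (1 : L) = (y - c • (1 : L)) + (z - d • (1 : L)) := by
      rw [add_smul]; abel
    rw [this]
    exact Submodule.add_mem _ hc hd
  · rintro a y _ ⟨c, hc⟩
    refine ⟨a * c, ?_⟩
    have : a • y - (a * c) • (1 : L) = a • (y - c • (1 : L)) := by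
      rw [smul_sub, smul_smul]
    rw [this]
    exact Submodule.smul_mem _ _ hc

/-- the degree 0 part of an element of T1 vanishes -/
lemma T1_g0 (h2 : StA2) : ∀ z ∈ T1 D, D.g.p 0 z = 0 := by
  intro z hz
  have : T1 D ≤ LinearMap.ker (D.g.p 0) := by
    refine Submodule.span_le.mpr ?_
    rintro y ⟨ν, hν, hy⟩
    have hl : (ν.length : ℤ) ≠ 0 := by
      have := List.length_pos_iff.mpr hν
      omega
    rw [SetLike.mem_coe, LinearMap.mem_ker]
    rcases hy with hy | hy
    · have h := h2 n L D 0 ν []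
      rw [w_nil, star_one, mul_one, if_neg (by simpa using hl.symm)] at h
      rw [hy]
      exact h
    · have h := h2 n L D 0 [] ν
      rw [w_nil, one_mul, if_neg (by
        simp only [List.length_nil, Nat.cast_zero, zero_sub]
        omega)] at h
      rw [hy]
      exact h
  exact LinearMap.mem_ker.mp (this hz)

lemma KK_one [Nontrivial L] (h2 : StA2) (h4 : StA8) (hn : n ≠ 0) (c : ℂ)
    (h : c • (1 : L) ∈ KK D h4) : c = 0 := by
  obtain ⟨k, hk⟩ := h
  rw [map_smul, Phi_pow_one D h4, smul_smul] at hk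
  have h0 := T1_g0 D h2 _ hk
  rw [map_smul, D.g.one] at h0
  have h1 : c * (n : ℂ) ^ k = 0 := by
    rcases smul_eq_zero.mp h0 with h | h
    · exact h
    · exact absurd h one_ne_zero
  rcases mul_eq_zero.mp h1 with h | h
  · exact h
  · exact absurd h (pow_ne_zero _ (by exact_mod_cast hn))

end

theorem hE1 (h1 : StA1) (h2 : StA2) (h3 : StA3) (h4 : StA8) (h5 : StE0) : StE1 := by
  intro n L _ _ _ _ _ D
  have hn : n ≠ 0 := by
    intro h
    subst h
    have := D.comp
    simp at this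
  have huni : ∀ (y : L) (c d : ℂ), y - c • (1 : L) ∈ KK D h4 → y - d • (1 : L) ∈ KK D h4 →
      c = d := by
    intro y c d hc hd
    have h := Submodule.sub_mem _ hd hc
    have e : y - d • (1 : L) - (y - c • (1 : L)) = (c - d) • (1 : L) := by
      rw [sub_smul]; abel
    rw [e] at h
    exact sub_eq_zero.mp (KK_one D h2 h4 hn _ h)
  choose t ht using KK_top D h4 hn
  have hadd : ∀ y z, t (y + z) = t y + t z := by
    intro y z
    refine huni (y + z) _ _ (ht _) ?_
    have : y + z - (t y + t z) • (1 : L) = (y - t y • (1 : L)) + (z - t z • (1 : L)) := by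
      rw [add_smul]; abel
    rw [this]
    exact Submodule.add_mem _ (ht y) (ht z)
  have hsmul : ∀ (c : ℂ) y, t (c • y) = c * t y := by
    intro c y
    refine huni (c • y) _ _ (ht _) ?_
    have : c • y - (c * t y) • (1 : L) = c • (y - t y • (1 : L)) := by
      rw [smul_sub, smul_smul]
    rw [this]
    exact Submodule.smul_mem _ _ (ht y)
  let τ : L →ₗ[ℂ] ℂ :=
    { toFun := t
      map_add' := hadd
      map_smul' := fun c y => by rw [hsmul]; rfl }
  have hτ : ∀ y, τ y = t y := fun y => rfl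
  have hK0 : ∀ y ∈ KK D h4, τ y = 0 := by
    intro y hy
    rw [hτ]
    refine huni y _ _ (ht _) ?_
    rw [zero_smul, sub_zero]
    exact hy
  have h0K : ∀ y, τ y = 0 → y ∈ KK D h4 := by
    intro y hy
    have := ht y
    rw [← hτ, hy, zero_smul, sub_zero] at this
    exact this
  have hτ1 : τ 1 = 1 := by
    rw [hτ]
    refine huni 1 _ _ (ht _) ?_
    rw [one_smul, sub_self]
    exact Submodule.zero_mem _
  have hτΦ : ∀ y, τ (D.Phi 1 y) = n * τ y := by
    intro y
    rw [hτ]
    refine huni _ _ _ (ht _) ?_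
    have h := KK_Phi D h4 _ (ht y)
    rw [map_sub, map_smul, Phi_one D h4, smul_smul, mul_comm] at h
    exact h
  refine ⟨τ, hτ1, ?_, ?_⟩
  · intro ν hν
    exact ⟨hK0 _ (T1_KK D h4 _ (Submodule.subset_span ⟨ν, hν, Or.inl rfl⟩)),
      hK0 _ (T1_KK D h4 _ (Submodule.subset_span ⟨ν, hν, Or.inr rfl⟩))⟩
  · intro s hs0 hs1
    let P : L →ₗ[ℂ] L := τ.smulRight (1 : L)
    have hP : ∀ y, P y = τ y • (1 : L) := fun y => rfl
    have h := h5 L (D.Phi 1) P s hs0 hs1
      (by
        intro x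
        rw [hP, hP, map_smul, hτ1, smul_eq_mul, mul_one])
      (by
        intro x
        rw [hP, hP, hτΦ, map_smul, Phi_one D h4, smul_smul, mul_comm])
      (by
        intro x hx
        have h0 : τ x = 0 := by
          rcases smul_eq_zero.mp ((hP x).symm.trans hx) with h | h
          · exact h
          · exact absurd h one_ne_zero
        obtain ⟨k, hk⟩ := h0K x h0
        obtain ⟨j, hj, hjk⟩ := T1_per D h4 _ hk
        refine ⟨k, j, hj, ?_⟩
        rw [add_comm, pow_add, Module.End.mul_apply, hjk])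
    have e : (fun y : L => y - (s : ℂ) • D.Phi 1 y + ((s : ℂ) * n * τ y) • (1 : L)) =
        fun y : L => y - (s : ℂ) • D.Phi 1 (y - P y) := by
      funext y
      rw [map_sub, hP, map_smul, Phi_one D h4, smul_sub, smul_smul, smul_smul]
      have : (s : ℂ) * (τ y * n) = (s : ℂ) * n * τ y := by ring
      rw [← this, mul_assoc]
      abel
    rw [e]
    exact h

end Pool.Agent.Helper69.SI
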