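import Pool.Agent.Helper99.SI.StM

set_option autoImplicit false

namespace Pool.Agent.Helper69.SI

open Pool.Agent.Helper99.SI LaurentPolynomial

section

variable {L : Type} [Ring L] [Algebra ℂ L]

lemma coeff_CT_smul (c : ℂ) (k : ℤ) (y : LL L) (j : ℤ) :
    ((C c * T k : AA) • y).coeff j = c • y.coeff (j - k) := by
  rw [smul_def', cen_CT, ← single_eq_C_mul_T, AddMonoidAlgebra.coeff_single_mul_apply,
    Algebra.smul_def]
  congr 2
  ring

lemma coeff_smul (a : AA) (y : LL L) (j : ℤ) :
    (a • y).coeff j = a.coeff.sum fun i c => c • y.coeff (j - i) := by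
  induction a using LaurentPolynomial.induction_on' with
  | add p q hp hq =>
    rw [add_smul, AddMonoidAlgebra.coeff_add, AddMonoidAlgebra.coeff_add, Finsupp.add_apply, hp, hq,
      Finsupp.sum_add_index']
    · intro i; exact zero_smul _ _
    · intro i b c; exact add_smul _ _ _
  | C_mul_T k c =>
    rw [coeff_CT_smul, ← single_eq_C_mul_T, AddMonoidAlgebra.coeff_single, Finsupp.sum_single_index]
    exact zero_smul _ _

lemma smul_mem_coeff (V : Submodule ℂ L) (a : AA) (y : LL L) (h : ∀ j, y.coeff j ∈ V) (j : ℤ) :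
    (a • y).coeff j ∈ V := by
  rw [coeff_smul, Finsupp.sum]
  exact V.sum_mem fun i _ => V.smul_mem _ (h _)

lemma eq_sum_T_smul_C (y : LL L) :
    y = ∑ j ∈ y.coeff.support, (T j : AA) • (C (y.coeff j) : LL L) := by
  ext k
  have e : (∑ j ∈ y.coeff.support, (T j : AA) • (C (y.coeff j) : LL L)).coeff k =
      ∑ j ∈ y.coeff.support, ((T j : AA) • (C (y.coeff j) : LL L)).coeff k := by
    rw [AddMonoidAlgebra.coeff_sum, Finsupp.finsetSum_apply]
  rw [e]
  have e2 : ∀ j ∈ y.coeff.support, ((T j : AA) • (C (y.coeff j) : LL L)).coeff k =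
      if j = k then y.coeff j else 0 := by
    intro j _
    have h1 : (T j : AA) = C 1 * T j := by rw [map_one, one_mul]
    rw [h1, coeff_CT_smul, one_smul, C_apply]
    by_cases h : j = k
    · subst h; simp
    · rw [if_neg h, if_neg (by omega)]
  rw [Finset.sum_congr rfl e2, Finset.sum_ite_eq' y.coeff.support k]
  split_ifs with h
  · rfl
  · exact Finsupp.notMem_support_iff.1 h

end

theorem hM1 : StM1 := by
  intro L _ _ V
  refine ⟨fun y => ⟨fun hy => ?_, fun hy => ?_⟩, fun a y ha hy => ?_⟩
  · induction hy using Submodule.span_induction with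
    | mem x hx =>
      obtain ⟨v, hv, rfl⟩ := hx
      intro j
      simp only [C_apply]
      split_ifs
      · exact hv
      · exact V.zero_mem
    | zero => intro j; exact V.zero_mem
    | add x z _ _ hx hz =>
      intro j
      rw [AddMonoidAlgebra.coeff_add, Finsupp.add_apply]
      exact V.add_mem (hx j) (hz j)
    | smul a x _ hx => exact smul_mem_coeff V a x hx
  · rw [eq_sum_T_smul_C y]
    exact Submodule.sum_mem _ fun j _ => Submodule.smul_mem _ _
      (Submodule.subset_span ⟨_, hy j, rfl⟩)
  · have hs : a.coeff.support.Nonempty := by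
      rw [Finsupp.support_nonempty_iff]
      intro h
      exact ha (AddMonoidAlgebra.coeff_injective h)
    set m := a.coeff.support.min' hs with hm
    have hm0 : a.coeff m ≠ 0 := Finsupp.mem_support_iff.1 (Finset.min'_mem _ hs)
    have hml : ∀ i, i < m → a.coeff i = 0 := by
      intro i hi
      by_contra h
      exact absurd (Finset.min'_le _ i (Finsupp.mem_support_iff.2 h)) (not_le.2 hi)
    by_contra hc
    push Not at hc
    classical
    set B := y.coeff.support.filter (fun j => y.coeff j ∉ V) with hB
    have hBn : B.Nonempty := by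
      obtain ⟨j, hj⟩ := hc
      refine ⟨j, Finset.mem_filter.2 ⟨?_, hj⟩⟩
      rw [Finsupp.mem_support_iff]
      intro h
      exact hj (h ▸ V.zero_mem)
    set k := B.min' hBn with hk
    have hkV : y.coeff k ∉ V := (Finset.mem_filter.1 (Finset.min'_mem _ hBn)).2
    have hkl : ∀ j, j < k → y.coeff j ∈ V := by
      intro j hj
      by_contra h
      have : j ∈ B := by
        refine Finset.mem_filter.2 ⟨?_, h⟩
        rw [Finsupp.mem_support_iff]
        intro h0
        exact h (h0 ▸ V.zero_mem)
      exact absurd (Finset.min'_le _ j this) (not_le.2 hj)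
    have h1 := hy (m + k)
    rw [coeff_smul, Finsupp.sum, ← Finset.add_sum_erase _ _ (Finset.min'_mem _ hs)] at h1
    have h2 : ∑ x ∈ a.coeff.support.erase (a.coeff.support.min' hs), a.coeff x • y.coeff (m + k - x) ∈ V := by
      refine V.sum_mem fun i hi => V.smul_mem _ (hkl _ ?_)
      have h3 := Finset.mem_erase.1 hi
      have h4 : m ≤ i := Finset.min'_le _ i h3.2
      have h5 : i ≠ m := h3.1
      omega
    have h3 : a.coeff m • y.coeff (m + k - m) ∈ V := by
      have := V.sub_mem h1 h2
      rwa [add_sub_cancel_right] at this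
    rw [add_sub_cancel_left] at h3
    have h4 := V.smul_mem (a.coeff m)⁻¹ h3
    rw [smul_smul, inv_mul_cancel₀ hm0, one_smul] at h4
    exact hkV h4

end Pool.Agent.Helper69.SI
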