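import Pool.Agent.Helper69.SI.M_M1

set_option autoImplicit false
set_option linter.unusedSectionVars false

namespace Pool.Agent.Helper69.SI

open Pool.Agent.Helper99.SI LaurentPolynomial

section

variable {L : Type} [Ring L] [Algebra ℂ L]

lemma C_smul' (c : ℂ) (y : L) : (C (c • y) : LL L) = (C c : AA) • (C y : LL L) := by
  ext k
  have h1 : (C c : AA) = C c * T 0 := by rw [T_zero, mul_one]
  rw [h1, coeff_CT_smul, C_apply, C_apply, sub_zero]
  split_ifs
  · rfl
  · rw [smul_zero]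

lemma mulR_mem {G : Set (LL L)} {N : Submodule AA (LL L)} {y z : LL L}
    (h : y ∈ Submodule.span AA G) (hG : ∀ g ∈ G, g * z ∈ N) : y * z ∈ N := by
  have : Submodule.span AA G ≤ N.comap (LinearMap.mulRight AA z) := Submodule.span_le.2 hG
  exact this h

lemma mulL_mem {G : Set (LL L)} {N : Submodule AA (LL L)} {y z : LL L}
    (h : y ∈ Submodule.span AA G) (hG : ∀ g ∈ G, z * g ∈ N) : z * y ∈ N := by
  have : Submodule.span AA G ≤ N.comap (LinearMap.mulLeft AA z) := Submodule.span_le.2 hG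
  exact this h

lemma mulLR_mem {G : Set (LL L)} {N : Submodule AA (LL L)} {y a z : LL L}
    (h : y ∈ Submodule.span AA G) (hG : ∀ g ∈ G, a * g * z ∈ N) : a * y * z ∈ N := by
  have h1 : a * y ∈ Submodule.span AA ((fun g => a * g) '' G) :=
    mulL_mem h fun g hg => Submodule.subset_span ⟨g, hg, rfl⟩
  refine mulR_mem h1 ?_
  rintro _ ⟨g, hg, rfl⟩
  exact hG g hg

variable [StarRing L] {n : ℕ} (D : Sys n L) (M : ℕ)

/-- small sets modulo PN -/
def Sm (G : Set (LL L)) : Prop :=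
  ∃ Fs : Finset (LL L), ∀ y ∈ G, y ∈ D.PN M ⊔ Submodule.span AA (Fs : Set (LL L))

variable {D M}

lemma Sm.of_span {G G' : Set (LL L)} (h : Sm D M G') (hG : ∀ y ∈ G, y ∈ Submodule.span AA G') :
    Sm D M G := by
  obtain ⟨Fs, hF⟩ := h
  exact ⟨Fs, fun y hy => (Submodule.span_le.2 hF) (hG y hy)⟩

lemma Sm.of_subset {G G' : Set (LL L)} (h : Sm D M G') (hG : G ⊆ G') : Sm D M G :=
  h.of_span fun _ hy => Submodule.subset_span (hG hy)

lemma Sm.of_finite {G : Set (LL L)} (h : G.Finite) : Sm D M G :=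
  ⟨h.toFinset, fun y hy => Submodule.mem_sup_right (Submodule.subset_span (by simpa using hy))⟩

lemma Sm.union {G G' : Set (LL L)} (h : Sm D M G) (h' : Sm D M G') : Sm D M (G ∪ G') := by
  classical
  obtain ⟨F, hF⟩ := h
  obtain ⟨F', hF'⟩ := h'
  refine ⟨F ∪ F', ?_⟩
  have hle : D.PN M ⊔ Submodule.span AA (F : Set (LL L)) ≤
      D.PN M ⊔ Submodule.span AA ((F ∪ F' : Finset (LL L)) : Set (LL L)) :=
    sup_le_sup_left (Submodule.span_mono (by simp)) _
  have hle' : D.PN M ⊔ Submodule.span AA (F' : Set (LL L)) ≤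
      D.PN M ⊔ Submodule.span AA ((F ∪ F' : Finset (LL L)) : Set (LL L)) :=
    sup_le_sup_left (Submodule.span_mono (by simp)) _
  rintro y (hy | hy)
  · exact hle (hF y hy)
  · exact hle' (hF' y hy)

lemma Sm.biUnion {ι : Type} {I : Set ι} (hI : I.Finite) {G : ι → Set (LL L)}
    (h : ∀ i ∈ I, Sm D M (G i)) : Sm D M (⋃ i ∈ I, G i) := by
  classical
  induction I, hI using Set.Finite.induction_on with
  | empty => exact Sm.of_finite (by simp)
  | insert ha hs ih =>
    rw [Set.biUnion_insert]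
    exact (h _ (Set.mem_insert _ _)).union (ih fun i hi => h i (Set.mem_insert_of_mem _ hi))

variable (D M)

lemma Sm_ghost : Sm D M (Set.range fun ν : W n => (C (star (D.w ν)) : LL L)) := by
  have h1 : Sm D M {y | ∃ ν : W n, M ≤ ν.length ∧ y = (C (star (D.w ν)) : LL L)} :=
    ⟨∅, fun y hy => Submodule.mem_sup_left (Submodule.subset_span (Or.inr hy))⟩
  have h2 : Sm D M ((fun ν : W n => (C (star (D.w ν)) : LL L)) '' {ν | ν.length < M}) :=
    Sm.of_finite ((List.finite_length_lt (Fin n) M).image _)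
  refine (h1.union h2).of_subset ?_
  rintro _ ⟨ν, rfl⟩
  by_cases h : M ≤ ν.length
  · exact Or.inl ⟨ν, h, rfl⟩
  · exact Or.inr ⟨ν, not_le.1 h, rfl⟩

lemma Sm_bt : Sm D M (Set.range fun ν : W n => D.b.bt (D.w ν)) := by
  have h1 : Sm D M {y | ∃ ν : W n, M ≤ ν.length ∧ y = D.b.bt (D.w ν)} :=
    ⟨∅, fun y hy => Submodule.mem_sup_left (Submodule.subset_span (Or.inl hy))⟩
  have h2 : Sm D M ((fun ν : W n => D.b.bt (D.w ν)) '' {ν | ν.length < M}) :=
    Sm.of_finite ((List.finite_length_lt (Fin n) M).image _)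
  refine (h1.union h2).of_subset ?_
  rintro _ ⟨ν, rfl⟩
  by_cases h : M ≤ ν.length
  · exact Or.inl ⟨ν, h, rfl⟩
  · exact Or.inr ⟨ν, not_le.1 h, rfl⟩

/-- left multiples by ghosts are small -/
def TT (y : LL L) : Prop := Sm D M (Set.range fun γ : W n => (C (star (D.w γ)) : LL L) * y)

/-- TT as a submodule -/
def TTs : Submodule AA (LL L) where
  carrier := {y | TT D M y}
  zero_mem' := by
    refine (Sm.of_finite (Set.finite_singleton 0)).of_subset ?_
    rintro _ ⟨γ, rfl⟩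
    simp
  add_mem' := by
    intro a b ha hb
    refine (Sm.union ha hb).of_span ?_
    rintro _ ⟨γ, rfl⟩
    change (C (star (D.w γ)) : LL L) * (a + b) ∈ _
    rw [mul_add]
    exact Submodule.add_mem _ (Submodule.subset_span (Or.inl ⟨γ, rfl⟩))
      (Submodule.subset_span (Or.inr ⟨γ, rfl⟩))
  smul_mem' := by
    intro c a ha
    refine Sm.of_span ha ?_
    rintro _ ⟨γ, rfl⟩
    change (C (star (D.w γ)) : LL L) * (c • a) ∈ _
    rw [mul_smul_comm]
    exact Submodule.smul_mem _ _ (Submodule.subset_span ⟨γ, rfl⟩)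

lemma range_p_finite (y : L) : (Set.range fun j : ℤ => D.b.p j y).Finite := by
  refine (((D.b.fin y).image (fun j => D.b.p j y)).insert 0).subset ?_
  rintro _ ⟨j, rfl⟩
  by_cases h : D.b.p j y = 0
  · exact Or.inl h
  · exact Or.inr ⟨j, h, rfl⟩

lemma mem_S (ν : W n) : D.w ν ∈ D.S := Submodule.subset_span ⟨ν, rfl⟩

end

section

variable {L : Type} [Ring L] [Algebra ℂ L] [StarRing L] [StarModule ℂ L] [Nontrivial L] {n : ℕ}
  (D : Sys n L) (M : ℕ)

lemma lev_fin (h4 : StA4) {X : Set L} (hX : X.Finite) :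
    ∃ l : ℕ, ∀ x ∈ X, ∀ κ : W n, l ≤ κ.length → x * D.w κ ∈ D.S := by
  choose l c h using h4 n L D
  refine ⟨hX.toFinset.sup l, fun x hx κ hκ => (h x κ ?_).1⟩
  exact (Finset.le_sup (f := l) (by simpa using hx)).trans hκ

lemma SA_mem (h7 : StM1) (y : LL L) (h : ∀ j, y.coeff j ∈ D.S) :
    y ∈ Submodule.span AA (Set.range fun σ : W n => (C (D.w σ) : LL L)) := by
  have h1 := ((h7 L D.S).1 y).2 h
  refine (Submodule.span_le.2 ?_) h1
  rintro _ ⟨v, hv, rfl⟩
  have h2 : v ∈ Submodule.span ℂ (Set.range D.w) := hv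
  change (C v : LL L) ∈ Submodule.span AA (Set.range fun σ : W n => (C (D.w σ) : LL L))
  induction h2 using Submodule.span_induction with
  | mem x hx =>
    obtain ⟨σ, rfl⟩ := hx
    exact Submodule.subset_span ⟨σ, rfl⟩
  | zero => rw [map_zero]; exact Submodule.zero_mem _
  | add x z hx hz h3 h4 =>
    rw [map_add]
    exact Submodule.add_mem _ (h3 hx) (h4 hz)
  | smul a x hx h3 =>
    rw [C_smul']
    exact Submodule.smul_mem _ _ (h3 hx)

lemma bt_mul_mem (h6 : StM0) (y z : L) (hy : y ∈ D.S) :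
    D.b.bt (y * z) ∈ Submodule.span AA (Set.range fun ρ : W n => D.b.bt (D.w ρ * z)) := by
  obtain ⟨-, -, hadd, hsm, -⟩ := h6 L D.b
  have h2 : y ∈ Submodule.span ℂ (Set.range D.w) := hy
  clear hy
  induction h2 using Submodule.span_induction with
  | mem x hx =>
    obtain ⟨σ, rfl⟩ := hx
    exact Submodule.subset_span ⟨σ, rfl⟩
  | zero =>
    have : D.b.bt (0 * z) = 0 := by
      ext j
      rw [ZGr.bt_coeff, zero_mul, map_zero]
      rfl
    rw [this]
    exact Submodule.zero_mem _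
  | add x w _ _ h3 h4 =>
    rw [add_mul, hadd]
    exact Submodule.add_mem _ h3 h4
  | smul a x _ h3 =>
    rw [smul_mul_assoc, hsm]
    exact Submodule.smul_mem _ _ h3

lemma C_mem_bt (h6 : StM0) (y : L) :
    (C y : LL L) ∈ Submodule.span AA (Set.range fun j : ℤ => D.b.bt (D.b.p j y)) := by
  obtain ⟨-, -, -, -, hC, -⟩ := h6 L D.b
  rw [hC y]
  refine finsum_induction (p := fun v => v ∈ Submodule.span AA
    (Set.range fun j : ℤ => D.b.bt (D.b.p j y))) (Submodule.zero_mem _)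
    (fun _ _ ha hb => Submodule.add_mem _ ha hb) fun j => ?_
  exact Submodule.smul_mem _ _ (Submodule.subset_span ⟨j, rfl⟩)

/-- the three cases -/
lemma star_mul_cases (h2 : StA1) (γ σ : W n) :
    (∃ τ : W n, σ = γ ++ τ ∧ star (D.w γ) * D.w σ = D.w τ) ∨
    (∃ γ' : W n, γ = σ ++ γ' ∧ star (D.w γ) * D.w σ = star (D.w γ')) ∨
    star (D.w γ) * D.w σ = 0 := by
  obtain ⟨-, ha, hb, hc, -⟩ := h2 n L D
  by_cases h : γ <+: σ
  · obtain ⟨τ, rfl⟩ := h
    exact Or.inl ⟨τ, rfl, ha γ τ⟩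
  · by_cases h' : σ <+: γ
    · obtain ⟨γ', rfl⟩ := h'
      exact Or.inr (Or.inl ⟨γ', rfl, hb σ γ'⟩)
    · exact Or.inr (Or.inr (hc γ σ h h'))

lemma TT_gen (h2 : StA1) (σ κ : W n) : TT D M (C (D.w σ * star (D.w κ)) : LL L) := by
  obtain ⟨hmul, -⟩ := h2 n L D
  have hf : Sm D M ((fun τ : W n => (C (D.w τ * star (D.w κ)) : LL L)) '' {τ | τ.length < σ.length + 1}) :=
    Sm.of_finite ((List.finite_length_lt (Fin n) _).image _)
  refine ((hf.union (Sm_ghost D M)).union (Sm.of_finite (Set.finite_singleton 0))).of_subset ?_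
  rintro _ ⟨γ, rfl⟩
  change (C (star (D.w γ)) : LL L) * C (D.w σ * star (D.w κ)) ∈ _
  rw [← map_mul, ← mul_assoc]
  rcases star_mul_cases D h2 γ σ with ⟨τ, h1, h3⟩ | ⟨γ', h1, h3⟩ | h3
  · rw [h3]
    refine Or.inl (Or.inl ⟨τ, ?_, rfl⟩)
    rw [h1, Set.mem_setOf_eq, List.length_append]
    omega
  · rw [h3, ← star_mul, ← hmul]
    exact Or.inl (Or.inr ⟨_, rfl⟩)
  · rw [h3, zero_mul, map_zero]
    exact Or.inr rfl

lemma one_sum (h2 : StA1) (k : ℕ) (y : LL L) : y = ∑ κ : Fin k → Fin n,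
    y * C (D.w (List.ofFn κ)) * C (star (D.w (List.ofFn κ))) := by
  obtain ⟨-, -, -, -, h1⟩ := h2 n L D
  simp_rw [mul_assoc, ← map_mul, ← Finset.mul_sum, ← map_sum, h1 k, map_one, mul_one]

lemma TT_all (h2 : StA1) (h4 : StA4) (h7 : StM1) (y : LL L) : TT D M y := by
  change y ∈ TTs D M
  obtain ⟨l, hl⟩ := lev_fin D h4 (Finsupp.finite_range y.coeff)
  rw [one_sum D h2 l y]
  refine Submodule.sum_mem _ fun κ _ => ?_
  have h1 : y * C (D.w (List.ofFn κ)) ∈ Submodule.span AA (Set.range fun σ : W n => (C (D.w σ) : LL L)) := by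
    refine SA_mem D h7 _ fun j => ?_
    have e : (y * C (D.w (List.ofFn κ)) : LL L).coeff j = y.coeff j * D.w (List.ofFn κ) := by
      rw [← single_eq_C]
      rw [AddMonoidAlgebra.coeff_mul_single_apply]
      congr 2
      simp
    rw [e]
    exact hl _ ⟨j, rfl⟩ _ (by simp)
  refine mulR_mem h1 ?_
  rintro _ ⟨σ, rfl⟩
  change (C (D.w σ) : LL L) * C (star (D.w (List.ofFn κ))) ∈ _
  rw [← map_mul]
  exact TT_gen D M h2 σ _

end

theorem hM3 (h1 : StA0) (h2 : StA1) (h3 : StA3) (h4 : StA4) (h5 : StA5) (h6 : StM0) (h7 : StM1) :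
    StM3 := by
  intro n L _ _ _ _ _ D X0 hX0 hX00 M
  obtain ⟨hmul, -⟩ := h2 n L D
  obtain ⟨hbm, -⟩ := h6 L D.b
  obtain ⟨l0, hl0⟩ := lev_fin D h4 hX0
  have hfin : (⋃ κ ∈ {κ : W n | κ.length = D.m0}, Set.range fun j : ℤ => D.b.p j (star (D.w κ))).Finite :=
    (List.finite_length_eq (Fin n) D.m0).biUnion fun κ _ => range_p_finite D _
  obtain ⟨m2, hm2⟩ := lev_fin D h4 hfin
  set m' := m2 + D.m0 with hm'
  set G' : Set (LL L) := (Set.range fun ν : W n => D.b.bt (D.w ν)) ∪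
    ⋃ q ∈ {q : W n | q.length = m'}, Set.range fun γ : W n => (C (star (D.w γ)) : LL L) * D.b.bt (D.w q) with hG'
  have hSG : Sm D M G' := (Sm_bt D M).union
    (Sm.biUnion (List.finite_length_eq (Fin n) m') fun q _ => TT_all D M h2 h4 h7 _)
  have key : ∀ (γ q : W n), m' ≤ q.length → (C (star (D.w γ)) : LL L) * D.b.bt (D.w q) ∈ Submodule.span AA G' := by
    intro γ q hq
    obtain ⟨q1, q2, q3, rfl, hq2, hq3⟩ : ∃ q1 q2 q3 : W n, q = q1 ++ (q2 ++ q3) ∧ q2.length = m2 ∧
        q3.length = D.m0 := by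
      refine ⟨q.take (q.length - m'), (q.drop (q.length - m')).take m2, (q.drop (q.length - m')).drop m2, ?_, ?_, ?_⟩
      · rw [List.take_append_drop, List.take_append_drop]
      · rw [List.length_take, List.length_drop]; omega
      · rw [List.length_drop, List.length_drop]; omega
    rw [hmul, hbm, ← mul_assoc]
    nth_rewrite 1 [one_sum D h2 D.m0 (D.b.bt (D.w q1))]
    rw [Finset.mul_sum, Finset.sum_mul]
    refine Submodule.sum_mem _ fun κ _ => ?_
    set kk : W n := List.ofFn κ with hkk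
    have hkl : kk.length = D.m0 := by rw [hkk]; simp
    have e0 : (C (star (D.w γ)) : LL L) * (D.b.bt (D.w q1) * C (D.w kk) * C (star (D.w kk))) *
        D.b.bt (D.w (q2 ++ q3)) = C (star (D.w γ)) * (D.b.bt (D.w q1) * C (D.w kk)) *
        (C (star (D.w kk)) * D.b.bt (D.w (q2 ++ q3))) := by
      simp only [mul_assoc]
    rw [e0]
    have hz : (D.b.bt (D.w q1) * C (D.w kk) : LL L) ∈
        Submodule.span AA (Set.range fun σ : W n => (C (D.w σ) : LL L)) := by
      refine SA_mem D h7 _ fun j => ?_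
      have e : (D.b.bt (D.w q1) * C (D.w kk) : LL L).coeff j = D.b.p j (D.w q1) * D.w kk := by
        rw [← single_eq_C, AddMonoidAlgebra.coeff_mul_single_apply]
        congr 1
        rw [← ZGr.bt_coeff]
        congr 1
        simp
      rw [e]
      exact D.UL q1 kk j hkl.ge
    have hb : (C (star (D.w kk)) : LL L) * D.b.bt (D.w (q2 ++ q3)) ∈
        Submodule.span AA (Set.range fun ρ : W n => D.b.bt (D.w ρ * D.w q3)) := by
      refine mulR_mem (C_mem_bt D h6 (star (D.w kk))) ?_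
      rintro _ ⟨j, rfl⟩
      change D.b.bt (D.b.p j (star (D.w kk))) * D.b.bt (D.w (q2 ++ q3)) ∈ _
      rw [← hbm, hmul, ← mul_assoc]
      refine bt_mul_mem D h6 _ _ (hm2 _ ?_ q2 hq2.ge)
      simp only [Set.mem_iUnion]
      exact ⟨kk, hkl, j, rfl⟩
    refine mulLR_mem hz ?_
    rintro _ ⟨σ, rfl⟩
    change (C (star (D.w γ)) : LL L) * C (D.w σ) * (C (star (D.w kk)) * D.b.bt (D.w (q2 ++ q3))) ∈ _
    rw [← map_mul]
    rcases star_mul_cases D h2 γ σ with ⟨τ, -, h8⟩ | ⟨γ', -, h8⟩ | h8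
    · rw [h8]
      refine mulL_mem hb ?_
      rintro _ ⟨ρ, rfl⟩
      change (C (D.w τ) : LL L) * D.b.bt (D.w ρ * D.w q3) ∈ _
      refine mulR_mem (C_mem_bt D h6 (D.w τ)) ?_
      rintro _ ⟨j, rfl⟩
      change D.b.bt (D.b.p j (D.w τ)) * D.b.bt (D.w ρ * D.w q3) ∈ _
      rw [← hbm, ← hmul]
      have h9 : D.b.p j (D.w τ) * D.w (ρ ++ q3) ∈ D.S :=
        D.UL τ (ρ ++ q3) j (by rw [List.length_append]; omega)
      have h10 := bt_mul_mem D h6 _ 1 h9
      rw [mul_one] at h10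
      refine (Submodule.span_le.2 ?_) h10
      rintro _ ⟨ν, rfl⟩
      change D.b.bt (D.w ν * 1) ∈ _
      rw [mul_one]
      exact Submodule.subset_span (Or.inl ⟨ν, rfl⟩)
    · rw [h8, ← mul_assoc, ← map_mul, ← star_mul, ← hmul]
      refine Submodule.subset_span (Or.inr ?_)
      simp only [Set.mem_iUnion]
      exact ⟨q2 ++ q3, by rw [Set.mem_setOf_eq, List.length_append, hq2, hq3], kk ++ γ', rfl⟩
    · rw [h8, map_zero, zero_mul]
      exact Submodule.zero_mem _
  have hG0 : Sm D M {y | ∃ x ∈ X0, ∃ γ q : W n, y = C (star (D.w γ)) * C x * D.b.bt (D.w q)} := by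
    have hS2 : Sm D M (⋃ x ∈ X0, ⋃ q ∈ {q : W n | q.length < l0 + m'},
        Set.range fun γ : W n => (C (star (D.w γ)) : LL L) * (C x * D.b.bt (D.w q))) :=
      Sm.biUnion hX0 fun x _ => Sm.biUnion (List.finite_length_lt (Fin n) _) fun q _ =>
        TT_all D M h2 h4 h7 _
    refine (hSG.union hS2).of_span ?_
    rintro _ ⟨x, hx, γ, q, rfl⟩
    by_cases hq : q.length < l0 + m'
    · refine Submodule.subset_span (Or.inr ?_)
      simp only [Set.mem_iUnion]
      exact ⟨x, hx, q, hq, γ, (mul_assoc _ _ _).symm⟩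
    · push Not at hq
      obtain ⟨q0, q', rfl, hq0⟩ : ∃ q0 q' : W n, q = q0 ++ q' ∧ q0.length = l0 := by
        refine ⟨q.take l0, q.drop l0, (List.take_append_drop _ _).symm, ?_⟩
        rw [List.length_take]; omega
      have hq' : m' ≤ q'.length := by
        rw [List.length_append] at hq
        omega
      have hCx : (C x : LL L) = D.b.bt x := by
        ext j
        rw [ZGr.bt_coeff, C_apply]
        by_cases hj : j = 0
        · rw [if_pos hj, hj, hX00 x hx]
        · rw [if_neg hj]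
          have := D.b.pp j 0 x
          rw [if_neg hj, hX00 x hx] at this
          exact this.symm
      rw [hCx, mul_assoc, ← hbm, hmul, ← mul_assoc x]
      refine mulL_mem (bt_mul_mem D h6 _ _ (hl0 x hx q0 hq0.ge)) ?_
      rintro _ ⟨ρ, rfl⟩
      change (C (star (D.w γ)) : LL L) * D.b.bt (D.w ρ * D.w q') ∈ _
      rw [← hmul]
      exact (Submodule.span_mono Set.subset_union_left) (key γ _ (by rw [List.length_append]; omega))
  obtain ⟨Fs, hFs⟩ := hG0
  exact ⟨Fs, Submodule.span_le.2 hFs⟩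

end Pool.Agent.Helper69.SI
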